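import Pool.Agent.PVD.StmtsL

/-! MP_e25c73_gt, squad PVD, block L, row L_FIN: the final statement of block L. -/

set_option autoImplicit false
open MeasureTheory

namespace Pool.Agent.PVD.L.H15

theorem small_q {η : ℝ} (h : 0 < η) :
    ∃ q : ℝ, 0 < q ∧ q < 1 ∧ 0 < TT q ∧ TT q ≤ η ∧ q ≤ η * TT q := by
  obtain ⟨x, hx⟩ : ∃ x : ℝ, x = 2 / η := ⟨_, rfl⟩
  have hx0 : 0 < x := by rw [hx]; positivity
  have hxe : η * x = 2 := by rw [hx]; field_simp
  have hT : TT (Real.exp (-x)) = Real.exp (-x) * x := by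
    unfold TT
    rw [one_div, ← Real.exp_neg, Real.log_exp, neg_neg]
  have he0 := Real.exp_pos (-x)
  refine ⟨Real.exp (-x), he0, ?_, ?_, ?_, ?_⟩
  · rw [Real.exp_lt_one_iff]; linarith
  · rw [hT]; positivity
  · rw [hT]
    have h1 := Real.quadratic_le_exp_of_nonneg hx0.le
    have h2 : Real.exp (-x) * Real.exp x = 1 := by
      rw [← Real.exp_add, neg_add_cancel, Real.exp_zero]
    have h3 : x ≤ η * Real.exp x := by
      have : η * (x ^ 2 / 2) = x := by
        have : η * (x ^ 2 / 2) = (η * x) * x / 2 := by ring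
        rw [this, hxe]; ring
      nlinarith
    calc Real.exp (-x) * x ≤ Real.exp (-x) * (η * Real.exp x) :=
          mul_le_mul_of_nonneg_left h3 he0.le
      _ = η * (Real.exp (-x) * Real.exp x) := by ring
      _ = η := by rw [h2, mul_one]
  · rw [hT]
    have : η * (Real.exp (-x) * x) = (η * x) * Real.exp (-x) := by ring
    rw [this, hxe]; linarith

theorem br_near {e y sg d : ℝ} (hw : WbdStmt) (h0 : 0 < e) (h1 : e < 1 / 128) (hy : 1 / 64 ≤ y)
    (hy1 : y ≤ 1) (hd : |sg - 1| ≤ d) (hd1 : d ≤ 1 / 2) : |br e sg y + GG e y| ≤ 8 * d := by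
  obtain ⟨b1, b2, b3, b4, b5, b6, -, -, -, -⟩ := hw e y h0 h1 hy hy1
  have hs : 1 / 2 ≤ sg := by
    have := (abs_le.mp hd).1
    linarith
  have hs0 : 0 < sg := by linarith
  have hd0 : 0 ≤ d := (abs_nonneg _).trans hd
  have h2 : 0 ≤ hh e y := by nlinarith [sq_nonneg e]
  have hy0 : 0 < y := by linarith
  have e1 : br e sg y + GG e y = (hh e y + cc e y) * (1 + e / y - aa e y) * ((sg - 1) / sg) := by
    unfold br GG
    field_simp
    ring
  have hey : e / y ≤ 1 / 2 := by
    rw [div_le_iff₀ hy0]; linarith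
  have hey0 : 0 ≤ e / y := by positivity
  have a1 : |hh e y + cc e y| ≤ 2 := by
    rw [abs_of_nonneg (by linarith)]; linarith
  have a2 : |1 + e / y - aa e y| ≤ 2 := by
    rw [abs_of_nonneg (by linarith)]; linarith
  have a3 : |(sg - 1) / sg| ≤ 2 * d := by
    rw [abs_div, abs_of_pos hs0, div_le_iff₀ hs0]
    nlinarith
  rw [e1, abs_mul, abs_mul]
  calc |hh e y + cc e y| * |1 + e / y - aa e y| * |(sg - 1) / sg| ≤ 2 * 2 * (2 * d) := by
        apply mul_le_mul _ a3 (abs_nonneg _) (by norm_num)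
        exact mul_le_mul a1 a2 (abs_nonneg _) (by norm_num)
    _ = 8 * d := by ring

/-- Row FIN. -/
theorem fin (hrem : RemStmt) (hexl : ExlStmt) (hexr : ExrStmt) (hexp : ExpStmt) (hw : WbdStmt)
    (hgg : Gg1Stmt) (hg64 : G64Stmt) : FinStmt := by
  obtain ⟨e0, he0, h64⟩ := hg64
  obtain ⟨k, hk⟩ := exists_nat_gt (max 128 (1 / e0))
  have hk1 : (128 : ℝ) < k := lt_of_le_of_lt (le_max_left _ _) hk
  have hk2 : 1 / e0 < k := lt_of_le_of_lt (le_max_right _ _) hk
  have hkp : (0 : ℝ) < k := by linarith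
  refine ⟨k, by exact_mod_cast hk1, ?_⟩
  obtain ⟨e, he⟩ : ∃ e : ℝ, e = 1 / (k : ℝ) := ⟨_, rfl⟩
  rw [← he]
  have hep : 0 < e := by rw [he]; positivity
  have he1 : e < 1 / 128 := by
    rw [he]; exact one_div_lt_one_div_of_lt (by norm_num) hk1
  have he2 : e < e0 := by
    rw [he, div_lt_iff₀ hkp]
    rw [div_lt_iff₀ he0] at hk2
    linarith
  have G1 := hgg e hep he1
  have G2 := h64 e hep he2 he1
  obtain ⟨C1, hC1, r1⟩ := hrem e hep he1
  obtain ⟨C2, hC2, r2⟩ := hexl e hep he1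
  obtain ⟨C3, hC3, r3⟩ := hexr e hep he1
  obtain ⟨C4, hC4, r4⟩ := hexp e hep he1
  obtain ⟨C, hC⟩ : ∃ C : ℝ, C = C1 + C2 + C3 + C4 := ⟨_, rfl⟩
  have hCp : 0 < C := by linarith
  obtain ⟨A, hA⟩ : ∃ A : ℝ, A = GG e 1 := ⟨_, rfl⟩
  obtain ⟨B, hB⟩ : ∃ B : ℝ, B = - GG e (1 / 64) := ⟨_, rfl⟩
  have hA0 : 0 < A := by rw [hA]; exact G1
  have hB0 : 0 < B := by rw [hB]; linarith
  -- the choice of d
  obtain ⟨d, hd⟩ : ∃ d : ℝ, d = min (min (A / 16) (B / 16)) (e ^ 2 / 8) := ⟨_, rfl⟩
  have hd0 : 0 < d := by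
    rw [hd]
    refine lt_min (lt_min (by positivity) (by positivity)) (by positivity)
  have hdA : d ≤ A / 16 := by
    rw [hd]; exact (min_le_left _ _).trans (min_le_left _ _)
  have hdB : d ≤ B / 16 := by
    rw [hd]; exact (min_le_left _ _).trans (min_le_right _ _)
  have hde : d ≤ e ^ 2 / 8 := by
    rw [hd]; exact min_le_right _ _
  have hd1 : d < 1 / 2 := by
    have g1 : e ^ 2 ≤ 1 := pow_le_one₀ hep.le (by linarith)
    linarith
  -- the choice of q
  obtain ⟨M, hM⟩ : ∃ M : ℝ, M = min (min (e * d / 4) (e ^ 3 / 32)) (min (e * A / 32) (e * B / 32)) :=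
    ⟨_, rfl⟩
  have hM0 : 0 < M := by
    rw [hM]
    refine lt_min (lt_min (by positivity) (by positivity)) (lt_min (by positivity) (by positivity))
  have hMd : M ≤ e * d / 4 := by
    rw [hM]; exact (min_le_left _ _).trans (min_le_left _ _)
  have hMe : M ≤ e ^ 3 / 32 := by
    rw [hM]; exact (min_le_left _ _).trans (min_le_right _ _)
  have hMA : M ≤ e * A / 32 := by
    rw [hM]; exact (min_le_right _ _).trans (min_le_left _ _)
  have hMB : M ≤ e * B / 32 := by
    rw [hM]; exact (min_le_right _ _).trans (min_le_right _ _)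
  obtain ⟨q, hq0, hq1, hT0, hT1, hqT⟩ := small_q (η := min (M / C) (min 1 (1 / (2 * C))))
    (lt_min (by positivity) (lt_min one_pos (by positivity)))
  obtain ⟨T, hTT⟩ : ∃ T : ℝ, T = TT q := ⟨_, rfl⟩
  rw [← hTT] at hT0 hT1 hqT
  have t1 : C * T ≤ M := by
    have : T ≤ M / C := hT1.trans (min_le_left _ _)
    rw [le_div_iff₀ hCp] at this
    linarith
  have t2 : T ≤ 1 := hT1.trans ((min_le_right _ _).trans (min_le_left _ _))
  have t3 : C * T ≤ 1 / 2 := by
    have : T ≤ 1 / (2 * C) := hT1.trans ((min_le_right _ _).trans (min_le_right _ _))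
    rw [le_div_iff₀ (by positivity)] at this
    linarith
  have t4 : C * q ≤ M * T := by
    have h1 : q ≤ M / C * T :=
      hqT.trans (mul_le_mul_of_nonneg_right (min_le_left _ _) hT0.le)
    have h2 : C * q ≤ C * (M / C * T) := mul_le_mul_of_nonneg_left h1 hCp.le
    have h3 : C * (M / C * T) = M * T := by field_simp
    linarith
  have t5 : q ≤ T := by
    have h1 : q ≤ 1 * T :=
      hqT.trans (mul_le_mul_of_nonneg_right ((min_le_right _ _).trans (min_le_left _ _)) hT0.le)
    linarith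
  have err : C * (q + T ^ 2) ≤ 2 * M * T := by
    have h1 : C * T * T ≤ M * T := mul_le_mul_of_nonneg_right t1 hT0.le
    have h2 : C * (q + T ^ 2) = C * q + C * T * T := by ring
    rw [h2]; linarith
  have errC : ∀ D : ℝ, D ≤ C → D * (q + T ^ 2) ≤ 2 * M * T := fun D hD =>
    (mul_le_mul_of_nonneg_right hD (by positivity)).trans err
  have errC' : ∀ D : ℝ, D ≤ C → D * TT q ≤ 1 / 2 := fun D hD => by
    rw [← hTT]
    exact (mul_le_mul_of_nonneg_right hD hT0.le).trans t3
  obtain ⟨K, hK⟩ : ∃ K : ℝ, K = T * min (e * d / 2) (min (e * A / 16) (e * B / 16)) := ⟨_, rfl⟩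
  have hK0 : 0 < K := by
    rw [hK]
    refine mul_pos hT0 (lt_min (by positivity) (lt_min (by positivity) (by positivity)))
  have hKd : K ≤ T * (e * d / 2) := by
    rw [hK]; exact mul_le_mul_of_nonneg_left (min_le_left _ _) hT0.le
  have hKA : K ≤ T * (e * A / 16) := by
    rw [hK]
    exact mul_le_mul_of_nonneg_left ((min_le_right _ _).trans (min_le_left _ _)) hT0.le
  have hKB : K ≤ T * (e * B / 16) := by
    rw [hK]
    exact mul_le_mul_of_nonneg_left ((min_le_right _ _).trans (min_le_right _ _)) hT0.le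
  refine ⟨q, d, K, hq0, hq1, hd0, hd1, hK0, ?_⟩
  intro sg y u1 u2 v hsg hy hy1 hu1 hu2 hv
  have hsg' := abs_le.mp hsg
  have par : Par e q sg y u1 u2 v :=
    { e0 := hep
      e1 := he1
      q0 := hq0
      qT := by rw [← hTT]; exact t5
      s0 := by linarith [hsg'.1]
      s1 := by linarith [hsg'.2]
      y0 := hy
      y1 := hy1
      u1b := hu1
      u2b := hu2
      vb := hv }
  have hy0 : 0 < y := by linarith
  have hs0 : 0 < sg := by linarith [hsg'.1]
  obtain ⟨b1, b2, b3, b4, b5, b6, -, b8, -, b10⟩ := hw e y hep he1 hy hy1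
  obtain ⟨p1, p2, -, -⟩ := r1 q sg y u1 u2 v par (errC' C1 (by linarith))
  obtain ⟨p3, -⟩ := r2 q sg y u1 u2 v par (errC' C2 (by linarith))
  have p4 := r3 q sg y u1 u2 v par (errC' C3 (by linarith))
  have p5 := r4 q sg y u1 u2 v par (errC' C4 (by linarith))
  rw [← hTT] at p3 p4 p5
  have q3 := (abs_le.mp p3).2.trans (errC C2 (by linarith))
  have q4 := abs_le.mp (p4.trans (errC C3 (by linarith)))
  have q5 := abs_le.mp (p5.trans (errC C4 (by linarith)))
  have hsv : ss e q sg y = sg * T * ww e y := by unfold ss; rw [← hTT]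
  have hslow : e * T / 4 ≤ ss e q sg y := by
    rw [hsv]
    have h1 : (1 / 2) * T ≤ sg * T := mul_le_mul_of_nonneg_right par.s0 hT0.le
    have h2 : (1 / 2) * T * (e / 2) ≤ sg * T * ww e y :=
      mul_le_mul h1 b8 (by positivity) (by positivity)
    linarith
  have hey : e ≤ e / y := by
    rw [le_div_iff₀ hy0]
    exact mul_le_of_le_one_right hep.le hy1
  refine ⟨p1, p2, ?_, ?_, ?_, ?_, ?_⟩
  · -- lam < 1
    unfold lam
    rw [Real.exp_lt_one_iff]
    have hTw : T * (e / y) = ss e q sg y * ((hh e y + cc e y) / sg) := by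
      rw [hsv, ← b10]
      field_simp
    have h1s : 1 - d ≤ 1 / sg := by
      rw [le_div_iff₀ hs0]
      have g1 : (1 - d) * sg ≤ (1 - d) * (1 + d) :=
        mul_le_mul_of_nonneg_left (by linarith [hsg'.2]) (by linarith)
      have g2 : (1 - d) * (1 + d) = 1 - d ^ 2 := by ring
      have g3 : 0 ≤ d ^ 2 := sq_nonneg d
      linarith
    have hhp : 0 ≤ hh e y + cc e y := by
      have g1 : 0 ≤ e ^ 2 := sq_nonneg e
      linarith
    have h2s : (hh e y + cc e y) * (1 - d) ≤ (hh e y + cc e y) / sg := by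
      have := mul_le_mul_of_nonneg_left h1s hhp
      rw [mul_one_div] at this
      exact this
    have h3s : cc e y - hh e y - (hh e y + cc e y) / sg ≤ - (e ^ 2 / 2) := by
      have g1 : (hh e y + cc e y) * d ≤ 2 * d :=
        mul_le_mul_of_nonneg_right (by linarith) hd0.le
      have g2 : (hh e y + cc e y) * (1 - d) = hh e y + cc e y - (hh e y + cc e y) * d := by ring
      have g3 : 0 ≤ e ^ 2 := sq_nonneg e
      linarith
    have h4s : ss e q sg y * (cc e y - hh e y - (hh e y + cc e y) / sg) ≤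
        (e * T / 4) * (- (e ^ 2 / 2)) := by
      have g1 := mul_le_mul_of_nonneg_left h3s p1.le
      have g2 : e * T / 4 * (e ^ 2 / 2) ≤ ss e q sg y * (e ^ 2 / 2) :=
        mul_le_mul_of_nonneg_right hslow (by positivity)
      linarith
    have h5s : M * T ≤ e ^ 3 / 32 * T := mul_le_mul_of_nonneg_right hMe hT0.le
    have h6s : 0 < e ^ 3 * T := by positivity
    have h7s : ss e q sg y * (cc e y - hh e y) - T * (e / y) =
        ss e q sg y * (cc e y - hh e y - (hh e y + cc e y) / sg) := by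
      rw [hTw]; ring
    rw [h7s] at q3
    linarith
  · intro hs
    have h1 : sg - 1 = - d := by rw [hs]; ring
    rw [h1] at q4
    have h2 : e * (T * d) ≤ e / y * (T * d) :=
      mul_le_mul_of_nonneg_right hey (mul_nonneg hT0.le hd0.le)
    have h3 : M * T ≤ e * d / 4 * T := mul_le_mul_of_nonneg_right hMd hT0.le
    linarith [q4.2]
  · intro hs
    have h1 : sg - 1 = d := by rw [hs]; ring
    rw [h1] at q4
    have h2 : e * (T * d) ≤ e / y * (T * d) :=
      mul_le_mul_of_nonneg_right hey (mul_nonneg hT0.le hd0.le)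
    have h3 : M * T ≤ e * d / 4 * T := mul_le_mul_of_nonneg_right hMd hT0.le
    linarith [q4.1]
  · intro hyy
    have h1 := abs_le.mp (br_near (y := y) hw hep he1 hy hy1 hsg hd1.le)
    rw [hyy, ] at h1
    rw [hyy] at q5 hslow p1
    have h2 : B / 2 ≤ br e sg (1 / 64) := by linarith [h1.1]
    have h3 : e * T / 4 * (B / 2) ≤ ss e q sg (1 / 64) * br e sg (1 / 64) :=
      mul_le_mul hslow h2 (by positivity) p1.le
    have h4 : M * T ≤ e * B / 32 * T := mul_le_mul_of_nonneg_right hMB hT0.le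
    rw [hyy]
    linarith [q5.1]
  · intro hyy
    have h1 := abs_le.mp (br_near (y := y) hw hep he1 hy hy1 hsg hd1.le)
    rw [hyy] at h1
    rw [hyy] at q5 hslow p1
    have h2 : A / 2 ≤ - br e sg 1 := by linarith [h1.2]
    have h3 : e * T / 4 * (A / 2) ≤ ss e q sg 1 * (- br e sg 1) :=
      mul_le_mul hslow h2 (by positivity) p1.le
    have h4 : M * T ≤ e * A / 32 * T := mul_le_mul_of_nonneg_right hMA hT0.le
    rw [hyy]
    linarith [q5.2]

end Pool.Agent.PVD.L.H15
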