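import Pool.Agent.PVD.StmtsM1

/-! MP_e25c73_gt, squad PVD, block M1, row N_HOM: homogeneity and monotonicity of the volumes. -/

set_option autoImplicit false
open MeasureTheory Filter Topology Pointwise

namespace Pool.Agent.PVD.M.H15

open Pool.Agent.PVD.L

theorem po_smul {n : ℕ} (A : Finset (Fin 4)) (c : Fin 4 → Fin n → ℝ) (h : Fin 4 → ℝ) {s : ℝ}
    (hs : 0 < s) : Po A c (fun i => s * h i) = s • Po A c h := by
  ext d
  rw [Set.mem_smul_set_iff_inv_smul_mem₀ hs.ne']
  unfold Po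
  simp only [Set.mem_setOf_eq, Pi.smul_apply, smul_eq_mul]
  have hsi : 0 < s⁻¹ := inv_pos.mpr hs
  constructor
  · rintro ⟨h1, h2⟩
    refine ⟨fun j => mul_nonneg hsi.le (h1 j), fun i hi => ?_⟩
    have h3 : ∑ j, c i j * (s⁻¹ * d j) = s⁻¹ * ∑ j, c i j * d j := by
      rw [Finset.mul_sum]
      exact Finset.sum_congr rfl fun j _ => by ring
    rw [h3]
    have h4 := mul_le_mul_of_nonneg_left (h2 i hi) hsi.le
    rwa [← mul_assoc, inv_mul_cancel₀ hs.ne', one_mul] at h4
  · rintro ⟨h1, h2⟩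
    refine ⟨fun j => ?_, fun i hi => ?_⟩
    · have h3 := mul_nonneg hs.le (h1 j)
      rwa [← mul_assoc, mul_inv_cancel₀ hs.ne', one_mul] at h3
    · have h3 : ∑ j, c i j * (s⁻¹ * d j) = s⁻¹ * ∑ j, c i j * d j := by
        rw [Finset.mul_sum]
        exact Finset.sum_congr rfl fun j _ => by ring
      have h4 := h2 i hi
      rw [h3] at h4
      have h5 := mul_le_mul_of_nonneg_left h4 hs.le
      rwa [← mul_assoc, mul_inv_cancel₀ hs.ne', one_mul] at h5

theorem nd_pos (n j : ℕ) : 0 < nd n j := by unfold nd; positivity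

theorem po_finite {n : ℕ} (e : ℝ) (h0 : 0 < e) (A : Finset (Fin 4)) (hA : 1 ∈ A)
    (h : Fin 4 → ℝ) :
    volume (Po A (fun (i : Fin 4) (j : Fin n) => cl e i (nd n j)) h) ≠ ⊤ := by
  have hsub : Po A (fun (i : Fin 4) (j : Fin n) => cl e i (nd n j)) h ⊆
      Set.Icc (fun _ => 0) (fun j : Fin n => h 1 / nd n j) := by
    intro d hd
    obtain ⟨h1, h2⟩ := hd
    refine ⟨fun j => h1 j, fun j => ?_⟩
    show d j ≤ h 1 / nd n j
    rw [le_div_iff₀ (nd_pos n j)]
    have h3 := h2 1 hA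
    have h4 : ∀ i ∈ Finset.univ, 0 ≤ cl e 1 (nd n (i : Fin n)) * d i := fun i _ => by
      rw [cl_one]
      exact mul_nonneg (nd_pos n i).le (h1 i)
    have h5 := Finset.single_le_sum h4 (Finset.mem_univ j)
    rw [cl_one] at h5
    linarith
  exact ne_top_of_le_ne_top (isCompact_Icc.measure_lt_top).ne (measure_mono hsub)

theorem one_mem {A : Finset (Fin 4)} (hA : A = AK ∨ A = AL) : (1 : Fin 4) ∈ A := by
  rcases hA with rfl | rfl
  · unfold AK; decide
  · unfold AL; decide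

/-- Row HOM. -/
theorem hom : HomStmt := by
  intro n e h0 h1 A hA h
  refine ⟨fun s hs => ?_, fun h' hh => ?_⟩
  · unfold VA
    rw [po_smul A _ h hs, Measure.addHaar_smul, ENNReal.toReal_mul,
      ENNReal.toReal_ofReal (abs_nonneg _), Module.finrank_fin_fun,
      abs_of_pos (pow_pos hs n)]
  · unfold VA
    refine ENNReal.toReal_mono (po_finite e h0 A (one_mem hA) h') (measure_mono ?_)
    rintro d ⟨h2, h3⟩
    exact ⟨h2, fun i hi => (h3 i hi).trans (hh i hi)⟩

end Pool.Agent.PVD.M.H15
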